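import Pool.Agent.P.MP_7bb7e1_gt.D.Bridge
import Pool.Agent.P.MP_7bb7e1_gt.D.Transfer

namespace Pool.Agent.Results.MP_7bb7e1_gt.GVIso

open Pool.Agent.P.MP_7bb7e1_gt.BG

theorem result : (∃! I : FreeAbelianGroup (Sp 2 1) →+ ℝ, IsGV I) ∧
    ∀ I : FreeAbelianGroup (Sp 2 1) →+ ℝ, IsGV I →
      (∀ a b c d, IsCycle a b c d → (I b = 0 ↔ IsBdry a b c d)) ∧
        ∀ r : ℝ, ∃ a b c d, IsCycle a b c d ∧ I b = r :=
  transfer Pool.Agent.P.MP_7bb7e1_gt.D.main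

end Pool.Agent.Results.MP_7bb7e1_gt.GVIso
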